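import Pool.Agent.H18.HIT.Targets

/-!
Module PEL: primitive elements.
-/

set_option autoImplicit false

namespace Pool.Agent.H54.HIT

open Polynomial Pool.Agent.H18.HIT

section gen

variable {A B F L : Type} [CommRing A] [IsDomain A] [CommRing B] [IsDomain B] [Field F]
  [CharZero F] [Field L] [Algebra A B] [Algebra A F] [IsFractionRing A F] [Algebra A L]
  [Algebra B L] [Algebra F L] [IsScalarTower A F L] [IsScalarTower A B L]

variable (A F) in
/-- the elements of `F[S]` are quotients of elements of `B` by elements of `A` -/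
theorem clear_den {N : ℕ} (x : Fin N → B) (y : L)
    (hy : y ∈ Algebra.adjoin F (Set.range fun i => algebraMap B L (x i))) :
    ∃ d : A, d ≠ 0 ∧ ∃ b : B, algebraMap A L d * y = algebraMap B L b := by
  induction hy using Algebra.adjoin_induction with
  | mem z hz =>
    obtain ⟨i, rfl⟩ := hz
    exact ⟨1, one_ne_zero, x i, by rw [map_one, one_mul]⟩
  | algebraMap r =>
    obtain ⟨a, d, hd, rfl⟩ := IsFractionRing.div_surjective (A := A) r
    have hd0 : d ≠ 0 := nonZeroDivisors.ne_zero hd
    refine ⟨d, hd0, algebraMap A B a, ?_⟩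
    have h1 : algebraMap A F d ≠ 0 := by
      intro h
      exact hd0 ((IsFractionRing.injective A F) (by rw [h, map_zero]))
    rw [IsScalarTower.algebraMap_apply A F L, ← map_mul, mul_div_cancel₀ _ h1,
      ← IsScalarTower.algebraMap_apply A F L, ← IsScalarTower.algebraMap_apply A B L]
  | add u v _ _ hu hv =>
    obtain ⟨d, hd, b, hb⟩ := hu
    obtain ⟨d', hd', b', hb'⟩ := hv
    refine ⟨d * d', mul_ne_zero hd hd', algebraMap A B d' * b + algebraMap A B d * b', ?_⟩
    rw [map_add, map_mul, map_mul, map_mul, ← IsScalarTower.algebraMap_apply A B L,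
      ← IsScalarTower.algebraMap_apply A B L, ← hb, ← hb']
    ring
  | mul u v _ _ hu hv =>
    obtain ⟨d, hd, b, hb⟩ := hu
    obtain ⟨d', hd', b', hb'⟩ := hv
    refine ⟨d * d', mul_ne_zero hd hd', b * b', ?_⟩
    rw [map_mul, map_mul, ← hb, ← hb']
    ring

end gen

theorem pel_core {A B : Type} (F L : Type) [CommRing A] [IsDomain A] [CommRing B] [IsDomain B]
    [Field F] [CharZero F] [Field L] [Algebra A B] [Algebra A F] [IsFractionRing A F]
    [Algebra A L] [Algebra B L] [Algebra F L] [IsScalarTower A F L] [IsScalarTower A B L]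
    {N : ℕ} (hBL : Function.Injective (algebraMap B L)) (x : Fin N → B)
    (hx : ∀ i, IsAlgebraic A (x i)) :
    ∃ (θ : B) (Φ : A[X]) (Δ : A) (R : Fin N → A[X]), Φ.Monic ∧ Irreducible Φ ∧
      aeval θ Φ = 0 ∧ Δ ≠ 0 ∧ ∀ i, algebraMap A B Δ * x i = aeval θ (R i) := by
  classical
  have hAF : Function.Injective (algebraMap A F) := IsFractionRing.injective A F
  set S : Set L := Set.range fun i => algebraMap B L (x i) with hS
  have hSalg : ∀ s ∈ S, IsAlgebraic F s := by
    rintro s ⟨i, rfl⟩
    exact (IsFractionRing.isAlgebraic_iff A F L).1 ((hx i).algebraMap)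
  have hfin : FiniteDimensional F (IntermediateField.adjoin F S) := by
    have : Finite S := Set.finite_range _
    exact IntermediateField.finiteDimensional_adjoin fun s hs => (hSalg s hs).isIntegral
  obtain ⟨α, hα⟩ := Field.exists_primitive_element F (IntermediateField.adjoin F S)
  have hαS : (α : L) ∈ Algebra.adjoin F S := by
    have h := IntermediateField.adjoin_toSubalgebra_of_isAlgebraic hSalg
    rw [← h]
    exact α.2
  obtain ⟨d, hd, b, hb⟩ := clear_den A F x (α : L) hαS
  have hαalg : IsAlgebraic F (α : L) :=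
    IntermediateField.isAlgebraic_iff.1 (Algebra.IsAlgebraic.isAlgebraic α)
  have hdF : algebraMap A F d ≠ 0 := fun h => hd (hAF (by rw [h, map_zero]))
  have hbalg : IsAlgebraic A b := by
    have h1 : IsAlgebraic A (algebraMap B L b) := by
      rw [← hb, IsFractionRing.isAlgebraic_iff A F L, IsScalarTower.algebraMap_apply A F L,
        ← Algebra.smul_def]
      exact hαalg.smul _
    exact (isAlgebraic_algebraMap_iff hBL).1 h1
  obtain ⟨a, ha, hint⟩ := hbalg.exists_integral_multiple
  have haF : algebraMap A F a ≠ 0 := fun h => ha (hAF (by rw [h, map_zero]))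
  set θ : B := a • b with hθ
  have hθL : algebraMap B L θ = algebraMap F L (algebraMap A F (a * d)) * (α : L) := by
    rw [hθ, Algebra.smul_def, map_mul, ← hb, ← IsScalarTower.algebraMap_apply A B L,
      ← IsScalarTower.algebraMap_apply A F L, map_mul]
    ring
  have hcF : algebraMap A F (a * d) ≠ 0 := by
    rw [map_mul]
    exact mul_ne_zero haF hdF
  -- the coordinates as polynomials
  have hcoord : ∀ i, ∃ (e : A) (R : A[X]), e ≠ 0 ∧ algebraMap A B e * x i = aeval θ R := by
    intro i
    have hxi : algebraMap B L (x i) ∈ IntermediateField.adjoin F S :=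
      IntermediateField.subset_adjoin F S ⟨i, rfl⟩
    have h1 : (⟨algebraMap B L (x i), hxi⟩ : IntermediateField.adjoin F S) ∈
        IntermediateField.adjoin F {α} := by
      rw [hα]
      exact IntermediateField.mem_top
    rw [← IntermediateField.mem_toSubalgebra,
      IntermediateField.adjoin_simple_toSubalgebra_of_isAlgebraic
        (Algebra.IsAlgebraic.isAlgebraic α), Algebra.adjoin_singleton_eq_range_aeval] at h1
    obtain ⟨P, hP⟩ := h1
    have hP' : aeval (α : L) P = algebraMap B L (x i) := by
      have h2 : ((aeval α P : IntermediateField.adjoin F S) : L) = algebraMap B L (x i) :=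
        congrArg Subtype.val hP
      rw [← h2]
      exact aeval_algebraMap_apply L α P
    set Q : F[X] := P.comp (C (algebraMap A F (a * d))⁻¹ * X) with hQ
    have hQ' : aeval (algebraMap B L θ) Q = algebraMap B L (x i) := by
      rw [hQ, Polynomial.aeval_comp, map_mul, aeval_C, aeval_X, hθL, ← mul_assoc, ← map_mul,
        inv_mul_cancel₀ hcF, map_one, one_mul, hP']
    obtain ⟨e, he, hR⟩ := IsLocalization.integerNormalization_spec (nonZeroDivisors A) Q
    refine ⟨e, IsLocalization.integerNormalization (nonZeroDivisors A) Q,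
      nonZeroDivisors.ne_zero he, ?_⟩
    apply hBL
    rw [map_mul, ← IsScalarTower.algebraMap_apply A B L, ← aeval_algebraMap_apply,
      ← aeval_map_algebraMap F, hR, ← algebraMap_smul F e Q, map_smul, hQ', Algebra.smul_def,
      ← IsScalarTower.algebraMap_apply A F L]
  choose e R he hR using hcoord
  refine ⟨θ, minpoly A θ, ∏ i, e i, fun i => C (∏ j ∈ Finset.univ.erase i, e j) * R i,
    minpoly.monic hint, minpoly.irreducible hint, minpoly.aeval A θ,
    Finset.prod_ne_zero_iff.2 fun i _ => he i, fun i => ?_⟩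
  rw [map_mul, aeval_C, ← hR i, ← Finset.mul_prod_erase Finset.univ e (Finset.mem_univ i),
    map_mul]
  ring

/-- algebraicity over the image of a surjective map -/
theorem alg_tr {A S B : Type} [CommRing A] [CommRing S] [CommRing B] [Algebra A B] [Algebra S B]
    (f : A →+* S) (hf : Function.Surjective f) (h : (algebraMap S B).comp f = algebraMap A B)
    (z : B) (hz : IsAlgebraic S z) : IsAlgebraic A z := by
  have h1 : IsAlgebraic S ((RingHom.id B) z) := hz
  exact h1.of_ringHom_of_comp_eq f (RingHom.id B) hf Function.injective_id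
    (RingHom.ext fun a => RingHom.congr_fun h a)

/-- algebraicity of the coordinates over the image of a dominant map -/
theorem alg_coord {N : ℕ} {k : Type} [Field k] (G : Tup N k)
    (hG : Function.Injective (MvPolynomial.aeval G : Po N k →ₐ[k] Po N k)) (z : Po N k) :
    @IsAlgebraic (Po N k) (Po N k) _ _
      (MvPolynomial.aeval G : Po N k →ₐ[k] Po N k).toRingHom.toAlgebra z := by
  have h1 : AlgebraicIndependent k G := hG
  have h2 : IsTranscendenceBasis k G := by
    apply h1.isTranscendenceBasis_of_trdeg_le_of_finite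
    rw [MvPolynomial.trdeg_of_isDomain, Cardinal.lift_id]
  have h3 : Algebra.IsAlgebraic (Algebra.adjoin k (Set.range G)) (Po N k) := h2.isAlgebraic
  have h4 : IsAlgebraic (Algebra.adjoin k (Set.range G)) z := Algebra.IsAlgebraic.isAlgebraic z
  refine @alg_tr (Po N k) (Algebra.adjoin k (Set.range G)) (Po N k) _ _ _
    (MvPolynomial.aeval G : Po N k →ₐ[k] Po N k).toRingHom.toAlgebra _
    (h1.aevalEquiv : Po N k ≃ₐ[k] _).toRingEquiv.toRingHom h1.aevalEquiv.surjective
    (RingHom.ext fun q => h1.algebraMap_aevalEquiv q) z h4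

theorem pel_gen (A B : Type) [CommRing A] [IsDomain A] [CharZero A] [CommRing B] [IsDomain B]
    [Algebra A B] (hinj : Function.Injective (algebraMap A B)) {N : ℕ} (x : Fin N → B)
    (hx : ∀ i, IsAlgebraic A (x i)) :
    ∃ (θ : B) (Φ : A[X]) (Δ : A) (R : Fin N → A[X]), Φ.Monic ∧ Irreducible Φ ∧
      aeval θ Φ = 0 ∧ Δ ≠ 0 ∧ ∀ i, algebraMap A B Δ * x i = aeval θ (R i) := by
  have h1 : FaithfulSMul A B := (faithfulSMul_iff_algebraMap_injective A B).2 hinj
  have h2 : Function.Injective (algebraMap B (FractionRing B)) :=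
    IsFractionRing.injective B (FractionRing B)
  have h3 : FaithfulSMul A (FractionRing B) :=
    (faithfulSMul_iff_algebraMap_injective A _).2 (by
      rw [IsScalarTower.algebraMap_eq A B (FractionRing B)]
      exact h2.comp hinj)
  have h4 : CharZero (FractionRing A) := inferInstance
  letI := FractionRing.liftAlgebra A (FractionRing B)
  exact pel_core (FractionRing A) (FractionRing B) h2 x hx

theorem pf_PEL : T_PEL := by
  intro N k _ _ G hG
  obtain ⟨θ, Φ, Δ, R, h1, h2, h3, h4, h5⟩ := @pel_gen (Po N k) (Po N k) _ _ _ _ _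
    (MvPolynomial.aeval G : Po N k →ₐ[k] Po N k).toRingHom.toAlgebra hG N
    (fun i => MvPolynomial.X i) (fun i => alg_coord G hG _)
  exact ⟨θ, Φ, Δ, R, h1, h2, h3, h4, h5⟩

end Pool.Agent.H54.HIT
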